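import Pool.Agent.MP_b8b722_ag.Bridge

open AlgebraicGeometry CategoryTheory Pool.Agent.MP_b8b722_ag.St

theorem Pool.Agent.Results.MP_b8b722_ag.NonSplitTypeA.result
    (g : ℕ) (D : Datum g) (hD : D.Sig) (p : ℕ) [hp : Fact p.Prime] (k : Type) [Field k]
    [IsAlgClosed k] [CharP k p] (X : Scheme.{0}) (π : X ⟶ Spec (CommRingCat.of k)) [IsIntegral X]
    [LocallyOfFiniteType π] (Z : D.ZipMap p X) (hA : Z.Smooth π) (hB : Z.Surj π)
    (hC : Z.SmallProper π) (ν : Fin (g + g) → ℤ) (s : Z.Sec ν) (hs : ∃ i, (s.s i).Nonzero) :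
    ∃ m : ℕ, 1 ≤ m ∧ ∃ F : D.ZipSec p k (m • ν), F.Nonzero := by
  rcases Nat.eq_zero_or_pos g with hg | hg
  · obtain ⟨F, hF⟩ := Pool.Agent.MP_b8b722_ag.main_zero D.toD hg p k (1 • ν)
    exact ⟨1, le_rfl, Datum.ofD F, hF⟩
  · obtain ⟨m, hm, F, hF⟩ := Pool.Agent.MP_b8b722_ag.Ctx.main
      { D.toD with p := p, hp := hp.out, pos := hg, k := k } hD X π Z.toD hA hB hC ν s.toD hs
    exact ⟨m, hm, Datum.ofD F, hF⟩
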